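import Mathlib
import Pool.Agent.P.MP_3b6bd2_nt.Main

namespace Pool.Agent.Results.MP_3b6bd2_nt.MimpliesL

open Filter Asymptotics

/-- Statement (M) (same-modulus Moebius form of Chowla's conjecture) implies statement (L)
(same-modulus Liouville form). -/
theorem result
    (hM : ∀ a : ℕ, 1 ≤ a → ∀ B : Finset ℕ, B.Nonempty → ∀ D : Finset ℕ,
      IsLittleO atTop
        (fun x : ℝ => ∑ n ∈ Finset.Icc 1 ⌊x⌋₊,
          (∏ b ∈ B, (ArithmeticFunction.moebius (a * n + b) : ℝ)) *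
            ∏ d ∈ D, (ArithmeticFunction.moebius (a * n + d) : ℝ) ^ 2)
        (fun x : ℝ => x)) :
    ∀ a : ℕ, 1 ≤ a → ∀ B : Finset ℕ, B.Nonempty →
      IsLittleO atTop
        (fun x : ℝ => ∑ n ∈ Finset.Icc 1 ⌊x⌋₊,
          ∏ b ∈ B, (ArithmeticFunction.liouville (a * n + b) : ℝ))
        (fun x : ℝ => x) := by
  intro a ha B hB
  refine (Pool.Agent.P.MP_3b6bd2_nt.littleO_iff _).2
    (Pool.Agent.P.MP_3b6bd2_nt.main_littleO (fun A hA T hT => ?_) a ha B hB)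
  refine (Pool.Agent.P.MP_3b6bd2_nt.littleO_iff _).1 ?_
  simpa [Pool.Agent.P.MP_3b6bd2_nt.mu] using hM A hA T hT ∅

end Pool.Agent.Results.MP_3b6bd2_nt.MimpliesL
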